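import Pool.Agent.Helper56.RZ.GoalsD

/-!
# Project RZ, third theorem, packet GA1 (as packet G1, Pool/Agent/Helper98/RZ/G1.lean)
-/

set_option autoImplicit false

open Set Filter Topology MeasureTheory

open scoped ContDiff

namespace Pool.Agent.Helper54.RZ

open Pool.Agent.Helper56.RZ

/-- GA1 -/
theorem ga1 : StmtTA → StmtF1 → StmtT1 → StmtT2 → StmtGA1 := by
  intro hTA hF1 hT1 hT2 N K M c p hp d a ha z0 ρ hρ hfit t
  obtain ⟨_, _, hqs, _, _, _, _, cq, hcq1, hcq⟩ := (hF1 N p hp).2 d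
  obtain ⟨hsm, hqH, hinv, _, hH1, _, _⟩ := hTA N p hp d a ha
  have hρ0 : ρ ≠ 0 := hρ.ne'
  have hH : ∀ s : ℝ, ContDiff ℝ ∞ (d.Ha a s) := by
    intro s
    have h1 : ContDiff ℝ ∞ (fun z : E N => ((s, z) : ℝ × E N)) := contDiff_const.prodMk contDiff_id
    exact hsm.comp h1
  -- the local map
  have hlocy : ∀ (s : ℝ) (y : E N), d.loca a z0 ρ s (z0 + ρ • y) = z0 + ρ • d.Ha a s y := by
    intro s y
    unfold Tw.loca
    rw [add_sub_cancel_left, smul_smul, inv_mul_cancel₀ hρ0, one_smul]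
  have hz : ∀ z : E N, z = z0 + ρ • (ρ⁻¹ • (z - z0)) := by
    intro z
    rw [smul_smul, mul_inv_cancel₀ hρ0, one_smul, add_sub_cancel]
  have hlocs : ∀ s : ℝ, ContDiff ℝ ∞ (d.loca a z0 ρ s) := by
    intro s
    have h1 : ContDiff ℝ ∞ (fun z : E N => ρ⁻¹ • (z - z0)) :=
      (contDiff_id.sub contDiff_const).const_smul ρ⁻¹
    have h2 : ContDiff ℝ ∞ (fun z : E N => d.Ha a s (ρ⁻¹ • (z - z0))) := (hH s).comp h1
    exact contDiff_const.add (h2.const_smul ρ)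
  have hlocV : ∀ (s : ℝ) (z : E N), z ∈ c.V → d.loca a z0 ρ s z ∈ c.V := by
    intro s z hzV
    rw [hz z, hlocy]
    rcases le_total (d.q (ρ⁻¹ • (z - z0))) 1 with h | h
    · exact hfit _ (by rw [hqH]; exact h)
    · rw [hH1 s _ h, ← hz z]
      exact hzV
  have hlocinv : ∀ (s : ℝ) (z : E N), d.loca a z0 ρ (-s) (d.loca a z0 ρ s z) = z := by
    intro s z
    conv_lhs => rw [hz z]
    rw [hlocy, hlocy, hinv, ← hz z]
  -- `hM` on `M`
  have hMW : ∀ (s : ℝ) (x : E K), x ∈ c.W → hMa c d a z0 ρ s x = c.ψ (d.loca a z0 ρ s (c.φ x)) := by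
    intro s x hx
    unfold hMa
    rw [if_pos hx]
  have hMnW : ∀ (s : ℝ) (x : E K), x ∉ c.W → hMa c d a z0 ρ s x = x := by
    intro s x hx
    unfold hMa
    rw [if_neg hx]
  have hmaps : ∀ s : ℝ, MapsTo (hMa c d a z0 ρ s) M M := by
    intro s x hx
    by_cases hW : x ∈ c.W
    · rw [hMW s x hW]
      exact (c.mapsψ _ (hlocV s _ (c.mapsφ x ⟨hx, hW⟩))).1
    · rw [hMnW s x hW]
      exact hx
  have hleft : ∀ s : ℝ, ∀ x ∈ M, hMa c d a z0 ρ (-s) (hMa c d a z0 ρ s x) = x := by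
    intro s x hx
    by_cases hW : x ∈ c.W
    · have h1 := hlocV s _ (c.mapsφ x ⟨hx, hW⟩)
      have h2 := c.mapsψ _ h1
      rw [hMW s x hW, hMW (-s) _ h2.2, c.left _ h1, hlocinv, c.right x ⟨hx, hW⟩]
    · rw [hMnW s x hW, hMnW (-s) x hW]
  -- the support
  have hcomp : IsCompact {y : E N | d.q y ≤ 1} := by
    have hcl : IsClosed {y : E N | d.q y ≤ 1} := isClosed_le hqs.continuous continuous_const
    have hb : {y : E N | d.q y ≤ 1} ⊆ Metric.closedBall (0 : E N) (cq + 1) := by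
      intro y hy
      rw [mem_closedBall_zero_iff]
      have h1 := (hcq y).1
      have h2 : d.q y ≤ 1 := hy
      have h3 : ‖y‖ ^ 2 ≤ cq := by nlinarith
      nlinarith [norm_nonneg y]
    exact (isCompact_closedBall (0 : E N) (cq + 1)).of_isClosed_subset hcl hb
  have hScomp : IsCompact ((fun y : E N => c.ψ (z0 + ρ • y)) '' {y : E N | d.q y ≤ 1}) := by
    apply hcomp.image_of_continuousOn
    have h1 : ContinuousOn (fun y : E N => z0 + ρ • y) {y : E N | d.q y ≤ 1} := by fun_prop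
    exact c.smoothψ.continuousOn.comp h1 (fun y hy => hfit y hy)
  have hoffval : ∀ (s : ℝ) (x : E K), x ∈ M → (¬ ∃ y, d.q y ≤ 1 ∧ x = c.ψ (z0 + ρ • y)) →
      hMa c d a z0 ρ s x = x := by
    intro s x hx hne
    by_cases hW : x ∈ c.W
    · rw [hMW s x hW]
      have hxx : x = c.ψ (z0 + ρ • (ρ⁻¹ • (c.φ x - z0))) := by
        rw [← hz (c.φ x), c.right x ⟨hx, hW⟩]
      have h1 : ¬ d.q (ρ⁻¹ • (c.φ x - z0)) ≤ 1 := fun h => hne ⟨_, h, hxx⟩
      have h2 : d.loca a z0 ρ s (c.φ x) = c.φ x := by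
        unfold Tw.loca
        rw [hH1 s _ (le_of_lt (not_le.mp h1)), ← hz (c.φ x)]
      rw [h2, c.right x ⟨hx, hW⟩]
    · exact hMnW s x hW
  have hoffev : ∀ (s : ℝ) (x : E K), (¬ ∃ y, d.q y ≤ 1 ∧ x = c.ψ (z0 + ρ • y)) →
      hMa c d a z0 ρ s =ᶠ[𝓝[M] x] id := by
    intro s x hne
    have h1 : ((fun y : E N => c.ψ (z0 + ρ • y)) '' {y : E N | d.q y ≤ 1})ᶜ ∈ 𝓝 x := by
      apply hScomp.isClosed.isOpen_compl.mem_nhds
      rintro ⟨y, hy, hyx⟩
      exact hne ⟨y, hy, hyx.symm⟩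
    filter_upwards [self_mem_nhdsWithin, mem_nhdsWithin_of_mem_nhds h1] with x' hx' hx2
    apply hoffval s x' hx'
    rintro ⟨y, hy, hyx⟩
    exact hx2 ⟨y, hy, hyx.symm⟩
  -- smoothness
  have hnear : ∀ (s : ℝ) (x : E K), x ∈ c.W →
      hMa c d a z0 ρ s =ᶠ[𝓝 x] (fun x => c.ψ (d.loca a z0 ρ s (c.φ x))) := by
    intro s x hW
    filter_upwards [c.openW.mem_nhds hW] with x' hx'
    exact hMW s x' hx'
  have hsmooth : ∀ s : ℝ, ContDiffOn ℝ ∞ (hMa c d a z0 ρ s) M := by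
    intro s x hx
    by_cases hW : x ∈ c.W
    · have h1 : ContDiffAt ℝ ∞ c.φ x := (c.smoothφ x hW).contDiffAt (c.openW.mem_nhds hW)
      have h2 : ContDiffAt ℝ ∞ (fun x => d.loca a z0 ρ s (c.φ x)) x :=
        (hlocs s).contDiffAt.comp x h1
      have hV := hlocV s _ (c.mapsφ x ⟨hx, hW⟩)
      have h3 : ContDiffAt ℝ ∞ c.ψ (d.loca a z0 ρ s (c.φ x)) :=
        (c.smoothψ _ hV).contDiffAt (c.openV.mem_nhds hV)
      have h4 : ContDiffAt ℝ ∞ (fun x => c.ψ (d.loca a z0 ρ s (c.φ x))) x := h3.comp x h2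
      exact (h4.congr_of_eventuallyEq (hnear s x hW)).contDiffWithinAt
    · have hne : ¬ ∃ y, d.q y ≤ 1 ∧ x = c.ψ (z0 + ρ • y) := by
        rintro ⟨y, hy, hyx⟩
        exact hW (hyx ▸ (c.mapsψ _ (hfit y hy)).2)
      have h1 : ContDiffWithinAt ℝ ∞ (id : E K → E K) M x := contDiffWithinAt_id
      exact h1.congr_of_eventuallyEq_of_mem (hoffev s x hne) hx
  refine ⟨⟨hmaps t, hmaps (-t), hleft t, ?_, hsmooth t, hsmooth (-t)⟩, ?_, ?_, ?_⟩
  · intro x hx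
    have h1 := hleft (-t) x hx
    rwa [neg_neg] at h1
  · intro y hy
    have hV := hfit y hy
    have hMWy := c.mapsψ _ hV
    rw [hMW t _ hMWy.2, c.left _ hV, hlocy]
  · intro x hx hne
    refine ⟨hoffval t x hx hne, ?_⟩
    have h1 : fderivWithin ℝ (hMa c d a z0 ρ t) M x = fderivWithin ℝ id M x :=
      (hoffev t x hne).fderivWithin_eq (hoffval t x hx hne)
    have h2 := (hT2 K M id id x hx).2.2.2.1
    rw [← h2]
    unfold der
    rw [h1]
  · intro y hy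
    have hV := hfit y hy
    have hMWy := c.mapsψ _ hV
    have hV' : d.loca a z0 ρ t (z0 + ρ • y) ∈ c.V := hlocV t _ hV
    have hlocdiff : HasFDerivAt (d.loca a z0 ρ t) (fderiv ℝ (d.Ha a t) y) (z0 + ρ • y) := by
      have h1 : HasFDerivAt (fun z : E N => ρ⁻¹ • (z - z0))
          (ρ⁻¹ • (ContinuousLinearMap.id ℝ (E N))) (z0 + ρ • y) :=
        ((hasFDerivAt_id (z0 + ρ • y)).sub_const z0).const_smul ρ⁻¹
      have h2 : HasFDerivAt (d.Ha a t) (fderiv ℝ (d.Ha a t) y) (ρ⁻¹ • ((z0 + ρ • y) - z0)) := by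
        rw [add_sub_cancel_left, smul_smul, inv_mul_cancel₀ hρ0, one_smul]
        exact ((hH t).contDiffAt.differentiableAt (by simp)).hasFDerivAt
      have h3 := (h2.comp (z0 + ρ • y) h1).const_smul ρ |>.const_add z0
      have h4 : ρ • ((fderiv ℝ (d.Ha a t) y).comp (ρ⁻¹ • (ContinuousLinearMap.id ℝ (E N)))) =
          fderiv ℝ (d.Ha a t) y := by
        ext1 v
        simp [smul_smul, hρ0]
      rw [h4] at h3
      exact h3
    have hφ : HasFDerivAt c.φ (fderiv ℝ c.φ (c.ψ (z0 + ρ • y))) (c.ψ (z0 + ρ • y)) :=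
      (((c.smoothφ _ hMWy.2).contDiffAt (c.openW.mem_nhds hMWy.2)).differentiableAt
        (by simp)).hasFDerivAt
    have hψ : HasFDerivAt c.ψ (fderiv ℝ c.ψ (z0 + ρ • d.Ha a t y)) (z0 + ρ • d.Ha a t y) := by
      have hV2 : z0 + ρ • d.Ha a t y ∈ c.V := by rw [← hlocy]; exact hV'
      exact (((c.smoothψ _ hV2).contDiffAt (c.openV.mem_nhds hV2)).differentiableAt
        (by simp)).hasFDerivAt
    have hl2 : HasFDerivAt (d.loca a z0 ρ t) (fderiv ℝ (d.Ha a t) y) (c.φ (c.ψ (z0 + ρ • y))) := by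
      rw [c.left _ hV]; exact hlocdiff
    have h5 : HasFDerivAt (fun x => d.loca a z0 ρ t (c.φ x))
        ((fderiv ℝ (d.Ha a t) y).comp (fderiv ℝ c.φ (c.ψ (z0 + ρ • y)))) (c.ψ (z0 + ρ • y)) :=
      hl2.comp _ hφ
    have hψ2 : HasFDerivAt c.ψ (fderiv ℝ c.ψ (z0 + ρ • d.Ha a t y))
        (d.loca a z0 ρ t (c.φ (c.ψ (z0 + ρ • y)))) := by
      rw [c.left _ hV, hlocy]; exact hψ
    have h6 : HasFDerivAt (fun x => c.ψ (d.loca a z0 ρ t (c.φ x)))
        ((fderiv ℝ c.ψ (z0 + ρ • d.Ha a t y)).comp ((fderiv ℝ (d.Ha a t) y).comp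
          (fderiv ℝ c.φ (c.ψ (z0 + ρ • y))))) (c.ψ (z0 + ρ • y)) :=
      hψ2.comp (c.ψ (z0 + ρ • y)) h5
    have h7 : HasFDerivAt (hMa c d a z0 ρ t)
        ((fderiv ℝ c.ψ (z0 + ρ • d.Ha a t y)).comp ((fderiv ℝ (d.Ha a t) y).comp
          (fderiv ℝ c.φ (c.ψ (z0 + ρ • y))))) (c.ψ (z0 + ρ • y)) :=
      h6.congr_of_eventuallyEq (hnear t _ hMWy.2)
    have h8 := (hT2 K M (hMa c d a z0 ρ t) id (c.ψ (z0 + ρ • y)) hMWy.1).1 _ h7.hasFDerivWithinAt
    have hV2 : z0 + ρ • d.Ha a t y ∈ c.V := by rw [← hlocy]; exact hV'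
    obtain ⟨A1, A2, -⟩ := hT1 N K M c (z0 + ρ • y) hV
    obtain ⟨B1, -, -⟩ := hT1 N K M c (z0 + ρ • d.Ha a t y) hV2
    rw [← h8]
    ext1 v
    have a1v := fun v => DFunLike.congr_fun A1 v
    have a2v := fun v => DFunLike.congr_fun A2 v
    have b1v := fun v => DFunLike.congr_fun B1 v
    simp only [ContinuousLinearMap.comp_apply, ContinuousLinearMap.mul_apply,
      ContinuousLinearMap.one_apply] at a1v a2v b1v ⊢
    rw [a2v, a1v, b1v]

end Pool.Agent.Helper54.RZ
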