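import Pool.Agent.Helper56.RZ.GoalsE
import Pool.Agent.Helper3.RZ.RE

/-!
# Packet RE2 of the project RZ4 (MP_f32c9c_an): covering by Bowen balls, finer form
-/

set_option autoImplicit false

open Set Filter Topology MeasureTheory

open scoped ContDiff

namespace Pool.Agent.Helper54.RZ

open Pool.Agent.Helper56.RZ Pool.Agent.Helper3.RZ

/-- packet RE2 -/
theorem re2 : StmtRCC → StmtRE2 := by
  intro hRCC K u M hM D S U h8 r lam ε δ1 hr hlam hε hδ1
  obtain ⟨δ0, hδ0, hR⟩ := hRCC K u M hM D S U h8 r lam ε hr hlam hε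
  have hlr : 0 < lam * r / 2 := by positivity
  have hδ : 0 < min δ0 (min (δ1 / 2) (lam * r / 2)) := lt_min hδ0 (lt_min (by linarith) hlr)
  obtain ⟨C, hC, hR2⟩ := hR (min δ0 (min (δ1 / 2) (lam * r / 2))) hδ (min_le_left _ _)
  have hδ2 : min δ0 (min (δ1 / 2) (lam * r / 2)) ≤ δ1 / 2 :=
    (min_le_right _ _).trans (min_le_left _ _)
  have hδ3 : min δ0 (min (δ1 / 2) (lam * r / 2)) ≤ lam * r / 2 :=
    (min_le_right _ _).trans (min_le_right _ _)
  generalize min δ0 (min (δ1 / 2) (lam * r / 2)) = δ at hδ hR2 hδ2 hδ3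
  refine ⟨C, hC, ?_⟩
  intro g g' hD q ρ A hρ hA hAr hpair
  have hgc : ContinuousOn g (Metric.ball 0 r) := by
    have h1 : ContinuousOn (fun a => (g a : E K)) (Metric.ball 0 r) := by
      intro a ha
      exact (hD.der a (by simpa using ha)).continuousAt.continuousWithinAt
    exact continuousOn_iff_continuous_domRestrict.2
      (Continuous.subtype_mk (continuousOn_iff_continuous_domRestrict.1 h1) _)
  obtain ⟨F, hF1, hF2, hF3⟩ := re_max D q g hM A δ hδ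
  have hcov : A ⊆ ⋃ b ∈ F, (A ∩ {a : E u | ‖a‖ < r ∧
      ∀ j ≤ q, ‖(D.f^[j] (g a) : E K) - D.f^[j] (g b)‖ ≤ δ}) := by
    intro a ha
    obtain ⟨b, hb, hab⟩ := hF3 a ha
    simp only [mem_iUnion]
    refine ⟨b, hb, ha, ?_, (reF_dist D q g a b δ hδ.le).1 hab⟩
    have := hAr a ha
    linarith
  have hone : ∀ b ∈ F, volume (A ∩ {a : E u | ‖a‖ < r ∧
      ∀ j ≤ q, ‖(D.f^[j] (g a) : E K) - D.f^[j] (g b)‖ ≤ δ}) ≤
      ENNReal.ofReal (C * Real.exp (ε * q) * ρ ^ u) * volume {a : E u | ‖a‖ < r ∧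
        ∀ j ≤ q, ‖(D.f^[j] (g a) : E K) - D.f^[j] (g b)‖ ≤ δ / 2} := by
    intro b hb
    refine hR2 g g' hD q b (hAr b (hF1 b hb)) ρ _ hρ (hA.inter (re_meas D q g r δ hgc b)) ?_ ?_
    · intro a ha
      exact ha.2
    · intro a ha a' ha'
      refine hpair a ha.1 a' ha'.1 ?_
      intro j hj
      have h1 := ha.2.2 j hj
      have h2 := ha'.2.2 j hj
      have h3 : (D.f^[j] (g a) : E K) - D.f^[j] (g a') =
          ((D.f^[j] (g a) : E K) - D.f^[j] (g b)) - ((D.f^[j] (g a') : E K) - D.f^[j] (g b)) := by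
        abel
      rw [h3]
      refine (norm_sub_le _ _).trans ?_
      linarith
  have hdisj : (F : Set (E u)).PairwiseDisjoint (fun b => {a : E u | ‖a‖ < r ∧
        ∀ j ≤ q, ‖(D.f^[j] (g a) : E K) - D.f^[j] (g b)‖ ≤ δ / 2}) := by
    intro b hb b' hb' hne
    rw [Function.onFun, Set.disjoint_left]
    intro a h1 h2
    have h3 := (reF_dist D q g a b (δ / 2) (by linarith)).2 h1.2
    have h4 := (reF_dist D q g a b' (δ / 2) (by linarith)).2 h2.2
    have h5 := hF2 b hb b' hb' hne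
    have h6 := dist_triangle_left (reF D q g b) (reF D q g b') (reF D q g a)
    linarith
  calc volume A ≤ volume (⋃ b ∈ F, (A ∩ {a : E u | ‖a‖ < r ∧
      ∀ j ≤ q, ‖(D.f^[j] (g a) : E K) - D.f^[j] (g b)‖ ≤ δ})) := measure_mono hcov
    _ ≤ ∑ b ∈ F, volume (A ∩ {a : E u | ‖a‖ < r ∧
      ∀ j ≤ q, ‖(D.f^[j] (g a) : E K) - D.f^[j] (g b)‖ ≤ δ}) := measure_biUnion_finset_le _ _
    _ ≤ ∑ b ∈ F, ENNReal.ofReal (C * Real.exp (ε * q) * ρ ^ u) * volume {a : E u | ‖a‖ < r ∧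
        ∀ j ≤ q, ‖(D.f^[j] (g a) : E K) - D.f^[j] (g b)‖ ≤ δ / 2} := Finset.sum_le_sum hone
    _ = ENNReal.ofReal (C * Real.exp (ε * q) * ρ ^ u) * ∑ b ∈ F, volume {a : E u | ‖a‖ < r ∧
        ∀ j ≤ q, ‖(D.f^[j] (g a) : E K) - D.f^[j] (g b)‖ ≤ δ / 2} := by rw [Finset.mul_sum]
    _ = ENNReal.ofReal (C * Real.exp (ε * q) * ρ ^ u) * volume (⋃ b ∈ F, {a : E u | ‖a‖ < r ∧
        ∀ j ≤ q, ‖(D.f^[j] (g a) : E K) - D.f^[j] (g b)‖ ≤ δ / 2}) := by
      rw [measure_biUnion_finset hdisj (fun b _ => re_meas D q g r (δ / 2) hgc b)]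
    _ ≤ ENNReal.ofReal (C * Real.exp (ε * q) * ρ ^ u) * volume {a : E u | ‖a‖ ≤ 3 * r / 4 ∧
        ∃ a0 ∈ A, ∀ j ≤ q, ‖(D.f^[j] (g a) : E K) - D.f^[j] (g a0)‖ ≤ δ1} := by
      gcongr
      intro a ha
      simp only [mem_iUnion] at ha
      obtain ⟨b, hbF, hb⟩ := ha
      have hbA := hF1 b hbF
      have hbr := hAr b hbA
      refine ⟨?_, b, hbA, fun j hj => (hb.2 j hj).trans (by linarith)⟩
      have h1 := hD.low a b hb.1 (by linarith)
      have h2 : ‖(g a : E K) - g b‖ ≤ δ / 2 := hb.2 0 (Nat.zero_le q)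
      have h3 : lam * ‖a - b‖ ≤ lam * (r / 4) := by
        have h4 : lam * (r / 4) = lam * r / 2 / 2 := by ring
        rw [h4]
        linarith
      have h5 : ‖a - b‖ ≤ r / 4 := le_of_mul_le_mul_left h3 hlam
      have h6 : ‖a‖ ≤ ‖a - b‖ + ‖b‖ := by
        calc ‖a‖ = ‖(a - b) + b‖ := by rw [sub_add_cancel]
          _ ≤ _ := norm_add_le _ _
      linarith

end Pool.Agent.Helper54.RZ
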