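import Pool.Agent.Helper56.RZ.GoalsC

/-!
Project RZ2 (MP_f32c9c_an), packet RG: regularity of the splitting near a good point.
-/

set_option autoImplicit false

open Set Filter Topology MeasureTheory

open scoped ContDiff

namespace Pool.Agent.Helper54.RZ

open Pool.Agent.Helper56.RZ

/-- iteration of a linear recursive inequality -/
theorem iter (σ κ τ : ℕ → ℝ) (N : ℕ) (h : ∀ j < N, σ j ≤ Real.exp (κ j) * σ (j + 1) + τ j) :
    σ 0 ≤ Real.exp (∑ j ∈ Finset.range N, κ j) * σ N +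
      ∑ k ∈ Finset.range N, Real.exp (∑ j ∈ Finset.range k, κ j) * τ k := by
  induction N with
  | zero => simp
  | succ N ih =>
    have h1 := ih fun j hj => h j (by omega)
    have h2 := h N (by omega)
    have h3 : Real.exp (∑ j ∈ Finset.range N, κ j) * σ N ≤
        Real.exp (∑ j ∈ Finset.range N, κ j) * (Real.exp (κ N) * σ (N + 1) + τ N) :=
      mul_le_mul_of_nonneg_left h2 (Real.exp_pos _).le
    rw [Finset.sum_range_succ (fun j => κ j), Finset.sum_range_succ, Real.exp_add]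
    calc σ 0 ≤ _ := h1
      _ ≤ Real.exp (∑ j ∈ Finset.range N, κ j) * (Real.exp (κ N) * σ (N + 1) + τ N) +
          ∑ k ∈ Finset.range N, Real.exp (∑ j ∈ Finset.range k, κ j) * τ k := by linarith
      _ = _ := by ring

theorem gen (hRC : StmtRC) {K : ℕ} {M : Set (E K)} (D : Coc M K) (S U : M → End K)
    (hp : Pair D S U) (u s a : M → ℝ) (C0 Λ ε C' α H L R A1 CB δ ρ : ℝ) (N : ℕ) (x y x0 : M)
    (hU : ∀ y, ‖D.B (D.f y) * U (D.f y)‖ ≤ Real.exp (u y + C0))
    (hS : ∀ x, ‖D.A x * S x‖ ≤ Real.exp (s x + C0))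
    (hL : ∀ x y : M, ‖D.A x - D.A y‖ ≤ L * ‖(x : E K) - y‖) (hL0 : 0 ≤ L)
    (hR : ∀ x, ‖S x‖ ≤ R) (hR0 : 0 ≤ R)
    (hH : ∀ x y : M, ‖U x - U y‖ ≤ H * ‖(x : E K) - y‖ ^ α) (hH0 : 0 ≤ H)
    (hA1 : ∀ x, a x ≤ A1)
    (hz : ∀ j ≤ N, |u (D.f^[j] y) - u (D.f^[j] x0)| ≤ 1 ∧ |s (D.f^[j] x) - s (D.f^[j] x0)| ≤ 1)
    (hd : ∀ j ≤ N, ‖(D.f^[j] x : E K) - D.f^[j] y‖ ≤ ‖(x : E K) - y‖ *
          Real.exp (∑ i ∈ Finset.range j, a (D.f^[i] x0) + j * (C0 + 2)))
    (hN : ‖(D.f^[N] x : E K) - D.f^[N] y‖ ≤ ‖(x : E K) - y‖ / ρ)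
    (hδ : δ ≤ CB * ρ * Real.exp (∑ j ∈ Finset.range (N + 1), a (D.f^[j] x0) + (N + 1) * (C0 + 2)))
    (hδ0 : 0 < δ) (hρ : 0 < ρ) (hCB : 1 ≤ CB) (hexp : Real.exp (N * Λ) ≤ ρ⁻¹)
    (H1 : ∀ n : ℕ, ∑ j ∈ Finset.range n, (u (D.f^[j] x0) + s (D.f^[j] x0) + a (D.f^[j] x0)) ≤
      2 * ε * (n * Λ) + C')
    (H2 : ∀ k : ℕ, ∑ j ∈ Finset.range k, (u (D.f^[j] x0) + s (D.f^[j] x0) + a (D.f^[j] x0)) +
      u (D.f^[k] x0) ≤ 2 * ε * ((k + 1) * Λ) + C')
    (hεΛ : 3 * C0 + 4 ≤ ε * Λ) (hC0 : 0 ≤ C0) (hε : 0 < ε) (hΛ : 0 < Λ) (hα : 0 < α) :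
    ‖U y * S x‖ ≤ (H * R * (CB / δ) * Real.exp (C' + A1 + C0 + 2)) *
      (ρ ^ (1 - 4 * ε) * (‖(x : E K) - y‖ / ρ) ^ α) +
      (L * R * Real.exp (C' + C0 + 1)) * (ρ ^ (-(4 * ε)) * ‖(x : E K) - y‖) := by
  set d : ℝ := ‖(x : E K) - y‖ with hdd
  have hd0 : 0 ≤ d := norm_nonneg _
  have hεΛ0 : 0 < ε * Λ := mul_pos hε hΛ
  -- the recursion
  have hrec := iter (fun j => ‖U (D.f^[j] y) * S (D.f^[j] x)‖)
    (fun j => (u (D.f^[j] x0) + s (D.f^[j] x0)) + (2 * C0 + 2))
    (fun j => Real.exp (u (D.f^[j] x0) + C0 + 1) * (L * ‖(D.f^[j] x : E K) - D.f^[j] y‖) * R) N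
    (by
      intro j hj
      have h1 := hRC M K D S U hp (D.f^[j] x) (D.f^[j] y)
      obtain ⟨hz1, hz2⟩ := hz j hj.le
      rw [abs_le] at hz1 hz2
      have hb1 : ‖D.B (D.f (D.f^[j] y)) * U (D.f (D.f^[j] y))‖ ≤
          Real.exp (u (D.f^[j] x0) + C0 + 1) :=
        (hU _).trans (Real.exp_le_exp.2 (by linarith))
      have hb2 : ‖D.A (D.f^[j] x) * S (D.f^[j] x)‖ ≤ Real.exp (s (D.f^[j] x0) + C0 + 1) :=
        (hS _).trans (Real.exp_le_exp.2 (by linarith))
      have hb3 : ‖D.A (D.f^[j] y) - D.A (D.f^[j] x)‖ ≤ L * ‖(D.f^[j] x : E K) - D.f^[j] y‖ := by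
        rw [norm_sub_rev]
        exact hL _ _
      simp only [Function.iterate_succ_apply']
      refine h1.trans (add_le_add ?_ ?_)
      · calc ‖D.B (D.f (D.f^[j] y)) * U (D.f (D.f^[j] y))‖ *
              ‖U (D.f (D.f^[j] y)) * S (D.f (D.f^[j] x))‖ * ‖D.A (D.f^[j] x) * S (D.f^[j] x)‖
            ≤ Real.exp (u (D.f^[j] x0) + C0 + 1) *
              ‖U (D.f (D.f^[j] y)) * S (D.f (D.f^[j] x))‖ *
              Real.exp (s (D.f^[j] x0) + C0 + 1) := by gcongr
          _ = _ := by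
            have he : Real.exp ((u (D.f^[j] x0) + s (D.f^[j] x0)) + (2 * C0 + 2)) =
                Real.exp (u (D.f^[j] x0) + C0 + 1) * Real.exp (s (D.f^[j] x0) + C0 + 1) := by
              rw [← Real.exp_add]
              congr 1
              ring
            rw [he]
            ring
      · have hb4 := hR (D.f^[j] x)
        gcongr)
  simp only [Function.iterate_zero, id] at hrec
  -- the sums
  have hsumκ : ∀ k : ℕ, ∑ j ∈ Finset.range k,
      ((u (D.f^[j] x0) + s (D.f^[j] x0)) + (2 * C0 + 2)) +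
      ∑ j ∈ Finset.range k, a (D.f^[j] x0) =
      ∑ j ∈ Finset.range k, (u (D.f^[j] x0) + s (D.f^[j] x0) + a (D.f^[j] x0)) +
        k * (2 * C0 + 2) := by
    intro k
    simp only [Finset.sum_add_distrib, Finset.sum_const, Finset.card_range, nsmul_eq_mul]
    ring
  -- exp (4 ε N Λ)
  have hE4 : Real.exp (4 * (ε * (N * Λ))) ≤ ρ ^ (-(4 * ε)) := by
    have h1 : Real.exp (4 * (ε * (N * Λ))) = (Real.exp (N * Λ)) ^ (4 * ε) := by
      rw [← Real.exp_mul]
      congr 1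
      ring
    have h2 : ρ ^ (-(4 * ε)) = (ρ⁻¹) ^ (4 * ε) := by
      rw [Real.rpow_neg hρ.le, Real.inv_rpow hρ.le]
    rw [h1, h2]
    exact Real.rpow_le_rpow (Real.exp_pos _).le hexp (by linarith)
  have hNexp : (N : ℝ) ≤ Real.exp (ε * (N * Λ)) := by
    have h1 : (N : ℝ) + 1 ≤ Real.exp N := Real.add_one_le_exp _
    have h2 : (N : ℝ) ≤ ε * (N * Λ) := by
      have h3 : (N : ℝ) * 1 ≤ N * (ε * Λ) :=
        mul_le_mul_of_nonneg_left (by linarith) (Nat.cast_nonneg N)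
      calc (N : ℝ) = N * 1 := (mul_one _).symm
        _ ≤ N * (ε * Λ) := h3
        _ = ε * (N * Λ) := by ring
    have h4 := Real.exp_le_exp.2 h2
    linarith
  -- the terms of the sum
  have hterm : ∀ k ∈ Finset.range N, Real.exp (∑ j ∈ Finset.range k,
      ((u (D.f^[j] x0) + s (D.f^[j] x0)) + (2 * C0 + 2))) *
      (Real.exp (u (D.f^[k] x0) + C0 + 1) * (L * ‖(D.f^[k] x : E K) - D.f^[k] y‖) * R) ≤
      L * R * d * Real.exp (3 * (ε * (N * Λ)) + (C' + C0 + 1)) := by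
    intro k hk
    have hkN : k + 1 ≤ N := Finset.mem_range.1 hk
    have hkN' : (k : ℝ) + 1 ≤ N := by exact_mod_cast hkN
    have h1 := hd k (by omega)
    have h2 := H2 k
    have h3 := hsumκ k
    calc _ ≤ Real.exp (∑ j ∈ Finset.range k,
        ((u (D.f^[j] x0) + s (D.f^[j] x0)) + (2 * C0 + 2))) *
        (Real.exp (u (D.f^[k] x0) + C0 + 1) * (L * (d *
          Real.exp (∑ i ∈ Finset.range k, a (D.f^[i] x0) + k * (C0 + 2)))) * R) := by gcongr
      _ = L * R * d * Real.exp ((∑ j ∈ Finset.range k,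
          ((u (D.f^[j] x0) + s (D.f^[j] x0)) + (2 * C0 + 2))) + (u (D.f^[k] x0) + C0 + 1) +
          (∑ i ∈ Finset.range k, a (D.f^[i] x0) + k * (C0 + 2))) := by
        have he : Real.exp ((∑ j ∈ Finset.range k,
          ((u (D.f^[j] x0) + s (D.f^[j] x0)) + (2 * C0 + 2))) + (u (D.f^[k] x0) + C0 + 1) +
          (∑ i ∈ Finset.range k, a (D.f^[i] x0) + k * (C0 + 2))) =
            Real.exp (∑ j ∈ Finset.range k,
              ((u (D.f^[j] x0) + s (D.f^[j] x0)) + (2 * C0 + 2))) *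
            Real.exp (u (D.f^[k] x0) + C0 + 1) *
            Real.exp (∑ i ∈ Finset.range k, a (D.f^[i] x0) + k * (C0 + 2)) := by
          rw [← Real.exp_add, ← Real.exp_add]
        rw [he]
        ring
      _ ≤ L * R * d * Real.exp (3 * (ε * (N * Λ)) + (C' + C0 + 1)) := by
        apply mul_le_mul_of_nonneg_left _ (by positivity)
        apply Real.exp_le_exp.2
        have h4 : (k : ℝ) * (3 * C0 + 4) ≤ k * (ε * Λ) :=
          mul_le_mul_of_nonneg_left hεΛ (Nat.cast_nonneg k)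
        have h5 : ((k : ℝ) + 1) * (ε * Λ) ≤ N * (ε * Λ) :=
          mul_le_mul_of_nonneg_right hkN' hεΛ0.le
        have h6 : 2 * ε * (((k : ℝ) + 1) * Λ) = 2 * (((k : ℝ) + 1) * (ε * Λ)) := by ring
        have h7 : 3 * (ε * ((N : ℝ) * Λ)) = 3 * (N * (ε * Λ)) := by ring
        rw [h7]
        rw [h6] at h2
        linarith
  have hsum : ∑ k ∈ Finset.range N, Real.exp (∑ j ∈ Finset.range k,
      ((u (D.f^[j] x0) + s (D.f^[j] x0)) + (2 * C0 + 2))) *
      (Real.exp (u (D.f^[k] x0) + C0 + 1) * (L * ‖(D.f^[k] x : E K) - D.f^[k] y‖) * R) ≤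
      (L * R * Real.exp (C' + C0 + 1)) * (ρ ^ (-(4 * ε)) * d) := by
    have hpos : 0 ≤ L * R * d * Real.exp (3 * (ε * (N * Λ)) + (C' + C0 + 1)) := by positivity
    calc _ ≤ ∑ k ∈ Finset.range N, L * R * d * Real.exp (3 * (ε * (N * Λ)) + (C' + C0 + 1)) :=
          Finset.sum_le_sum hterm
      _ = N * (L * R * d * Real.exp (3 * (ε * (N * Λ)) + (C' + C0 + 1))) := by
          rw [Finset.sum_const, Finset.card_range, nsmul_eq_mul]
      _ ≤ Real.exp (ε * (N * Λ)) *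
          (L * R * d * Real.exp (3 * (ε * (N * Λ)) + (C' + C0 + 1))) :=
          mul_le_mul_of_nonneg_right hNexp hpos
      _ = (L * R * Real.exp (C' + C0 + 1) * d) * Real.exp (4 * (ε * (N * Λ))) := by
          have he1 : Real.exp (3 * (ε * (N * Λ)) + (C' + C0 + 1)) =
              Real.exp (3 * (ε * (N * Λ))) * Real.exp (C' + C0 + 1) := Real.exp_add _ _
          have he2 : Real.exp (4 * (ε * (N * Λ))) =
              Real.exp (ε * (N * Λ)) * Real.exp (3 * (ε * (N * Λ))) := by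
            rw [← Real.exp_add]
            congr 1
            ring
          rw [he1, he2]
          ring
      _ ≤ (L * R * Real.exp (C' + C0 + 1) * d) * ρ ^ (-(4 * ε)) :=
          mul_le_mul_of_nonneg_left hE4 (by positivity)
      _ = _ := by ring
  -- the last term
  have hσN : ‖U (D.f^[N] y) * S (D.f^[N] x)‖ ≤ H * (d / ρ) ^ α * R := by
    have h1 : U (D.f^[N] y) * S (D.f^[N] x) = -((U (D.f^[N] x) - U (D.f^[N] y)) *
        S (D.f^[N] x)) := by
      rw [sub_mul, hp.GF]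
      simp
    rw [h1, norm_neg]
    refine (norm_mul_le _ _).trans ?_
    have h2 := hH (D.f^[N] x) (D.f^[N] y)
    have h3 : ‖(D.f^[N] x : E K) - D.f^[N] y‖ ^ α ≤ (d / ρ) ^ α :=
      Real.rpow_le_rpow (norm_nonneg _) hN hα.le
    have h4 : ‖U (D.f^[N] x) - U (D.f^[N] y)‖ ≤ H * (d / ρ) ^ α :=
      h2.trans (mul_le_mul_of_nonneg_left h3 hH0)
    have h5 : 0 ≤ H * (d / ρ) ^ α := mul_nonneg hH0 (Real.rpow_nonneg (by positivity) _)
    exact mul_le_mul h4 (hR _) (norm_nonneg _) h5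
  have hEκ : Real.exp (∑ j ∈ Finset.range N,
      ((u (D.f^[j] x0) + s (D.f^[j] x0)) + (2 * C0 + 2))) ≤
      (CB / δ) * Real.exp (C' + A1 + C0 + 2) * ρ ^ (1 - 4 * ε) := by
    have h1 : 1 ≤ (CB / δ) * ρ * Real.exp (∑ j ∈ Finset.range (N + 1), a (D.f^[j] x0) +
        (N + 1) * (C0 + 2)) := by
      have h2 : (CB / δ) * ρ * Real.exp (∑ j ∈ Finset.range (N + 1), a (D.f^[j] x0) +
        (N + 1) * (C0 + 2)) = (CB * ρ * Real.exp (∑ j ∈ Finset.range (N + 1), a (D.f^[j] x0) +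
        (N + 1) * (C0 + 2))) / δ := by ring
      rw [h2, le_div_iff₀ hδ0]
      linarith
    have h3 := hsumκ N
    have h4 := H1 N
    have h5 := hA1 (D.f^[N] x0)
    have h6 : (N : ℝ) * (3 * C0 + 4) ≤ N * (ε * Λ) :=
      mul_le_mul_of_nonneg_left hεΛ (Nat.cast_nonneg N)
    have h8 : (0 : ℝ) ≤ N * (ε * Λ) := by positivity
    calc _ = Real.exp (∑ j ∈ Finset.range N,
          ((u (D.f^[j] x0) + s (D.f^[j] x0)) + (2 * C0 + 2))) * 1 := (mul_one _).symm
      _ ≤ Real.exp (∑ j ∈ Finset.range N,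
          ((u (D.f^[j] x0) + s (D.f^[j] x0)) + (2 * C0 + 2))) *
          ((CB / δ) * ρ * Real.exp (∑ j ∈ Finset.range (N + 1), a (D.f^[j] x0) +
          (N + 1) * (C0 + 2))) := mul_le_mul_of_nonneg_left h1 (Real.exp_pos _).le
      _ = (CB / δ) * ρ * Real.exp (∑ j ∈ Finset.range N,
          ((u (D.f^[j] x0) + s (D.f^[j] x0)) + (2 * C0 + 2)) +
          (∑ j ∈ Finset.range (N + 1), a (D.f^[j] x0) + (N + 1) * (C0 + 2))) := by
          rw [Real.exp_add (∑ j ∈ Finset.range N,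
          ((u (D.f^[j] x0) + s (D.f^[j] x0)) + (2 * C0 + 2)))]
          ring
      _ ≤ (CB / δ) * ρ * Real.exp (4 * (ε * (N * Λ)) + (C' + A1 + C0 + 2)) := by
          apply mul_le_mul_of_nonneg_left _ (by positivity)
          apply Real.exp_le_exp.2
          rw [Finset.sum_range_succ (fun j => a (D.f^[j] x0))]
          have h7 : 2 * ε * ((N : ℝ) * Λ) = 2 * (N * (ε * Λ)) := by ring
          have h9 : 4 * (ε * ((N : ℝ) * Λ)) = 4 * (N * (ε * Λ)) := by ring
          rw [h7] at h4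
          rw [h9]
          linarith
      _ = ((CB / δ) * Real.exp (C' + A1 + C0 + 2) * ρ) * Real.exp (4 * (ε * (N * Λ))) := by
          rw [Real.exp_add]
          ring
      _ ≤ ((CB / δ) * Real.exp (C' + A1 + C0 + 2) * ρ) * ρ ^ (-(4 * ε)) :=
          mul_le_mul_of_nonneg_left hE4 (by positivity)
      _ = _ := by
          rw [show (1 - 4 * ε) = 1 + -(4 * ε) by ring, Real.rpow_add hρ, Real.rpow_one]
          ring
  have hlast : Real.exp (∑ j ∈ Finset.range N,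
      ((u (D.f^[j] x0) + s (D.f^[j] x0)) + (2 * C0 + 2))) * ‖U (D.f^[N] y) * S (D.f^[N] x)‖ ≤
      (H * R * (CB / δ) * Real.exp (C' + A1 + C0 + 2)) * (ρ ^ (1 - 4 * ε) * (d / ρ) ^ α) := by
    calc _ ≤ ((CB / δ) * Real.exp (C' + A1 + C0 + 2) * ρ ^ (1 - 4 * ε)) *
          (H * (d / ρ) ^ α * R) :=
          mul_le_mul hEκ hσN (norm_nonneg _) (by positivity)
      _ = _ := by ring
  linarith

theorem rg (hRC : StmtRC) (hOD : StmtOD) : StmtRG := by
  intro K M hM D P a b c C0 Λ ε C' α Cα CB hSpl hLin hRat hC0 hΛ ha hε hεΛ hα hα1 hHol hCB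
  have : CompactSpace M := isCompact_iff_compactSpace.1 hM
  -- bounds
  have hbd : ∀ g : M → ℝ, Continuous g → ∃ B : ℝ, ∀ x, g x ≤ B := by
    intro g hg
    obtain ⟨B, hB⟩ := (isCompact_range hg).bddAbove
    exact ⟨B, fun x => hB (mem_range_self x)⟩
  obtain ⟨A1, hA1⟩ := hbd a hRat.conta
  obtain ⟨R0, hR0⟩ := hbd _ (hSpl.cont 0).norm
  obtain ⟨R1, hR1⟩ := hbd _ (hSpl.cont 1).norm
  set R : ℝ := |R0| + |R1| with hRdef
  have hRnn : 0 ≤ R := by positivity
  have hRP0 : ∀ x, ‖P 0 x‖ ≤ R := fun x =>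
    (hR0 x).trans ((le_abs_self _).trans (by rw [hRdef]; linarith [abs_nonneg R1]))
  have hRP01 : ∀ x, ‖P 0 x + P 1 x‖ ≤ R := fun x =>
    (norm_add_le _ _).trans (add_le_add ((hR0 x).trans (le_abs_self _))
      ((hR1 x).trans (le_abs_self _)))
  obtain ⟨L, hL0, hL⟩ := hLin.lip
  -- uniform continuity
  have huc : ∀ g : M → ℝ, Continuous g → ∃ θ > 0, ∀ p q : M, ‖(p : E K) - q‖ ≤ θ →
      |g p - g q| ≤ 1 := by
    intro g hg
    have h1 := CompactSpace.uniformContinuous_of_continuous hg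
    rw [Metric.uniformContinuous_iff] at h1
    obtain ⟨θ, hθ, h2⟩ := h1 1 one_pos
    refine ⟨θ / 2, by positivity, fun p q hpq => ?_⟩
    have h3 : dist p q < θ := by
      rw [Subtype.dist_eq, dist_eq_norm]
      linarith
    have h4 := h2 h3
    rw [Real.dist_eq] at h4
    exact h4.le
  obtain ⟨θa, hθa, hua⟩ := huc a hRat.conta
  obtain ⟨θb, hθb, hub⟩ := huc b hRat.contb
  obtain ⟨θc, hθc, huc'⟩ := huc c hRat.contc
  set θ : ℝ := min θa (min θb θc) with hθdef
  have hθ : 0 < θ := lt_min hθa (lt_min hθb hθc)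
  obtain ⟨δ, hδ0, hδθ, hδ1, hod⟩ := hOD K M hM D a C0 Λ θ hLin hRat.conta hC0 hRat.nA hΛ ha hθ
  have hCB0 : 0 < CB := by linarith
  set H : ℝ := 2 * |Cα| with hHdef
  have hH0 : 0 ≤ H := by positivity
  set T1 : ℝ := H * R * (CB / δ) * Real.exp (C' + A1 + C0 + 2) with hT1
  set T2 : ℝ := L * R * Real.exp (C' + C0 + 1) with hT2
  have hT10 : 0 ≤ T1 := by positivity
  have hT20 : 0 ≤ T2 := by positivity
  have hHi : ∀ (i : Fin 3) (x y : M), ‖P i x - P i y‖ ≤ |Cα| * ‖(x : E K) - y‖ ^ α := by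
    intro i x y
    exact (hHol i x y).trans (mul_le_mul_of_nonneg_right (le_abs_self _)
      (Real.rpow_nonneg (norm_nonneg _) _))
  -- the pairs
  have hp1 : Pair D (fun x => P 0 x + P 1 x) (P 2) :=
    { contF := (hSpl.cont 0).add (hSpl.cont 1)
      contG := hSpl.cont 2
      FF := by
        intro x
        simp only [add_mul, mul_add, hSpl.proj]
        simp
      GG := by intro x; simp [hSpl.proj]
      FG := by
        intro x
        simp only [add_mul, hSpl.proj]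
        simp
      GF := by
        intro x
        simp only [mul_add, hSpl.proj]
        simp
      sum := hSpl.sum
      AF := by
        intro x
        simp only [add_mul, mul_add, hSpl.inv]
      AG := fun x => hSpl.inv x 2 }
  have hp2 : Pair D (P 0) (fun x => P 1 x + P 2 x) :=
    { contF := hSpl.cont 0
      contG := (hSpl.cont 1).add (hSpl.cont 2)
      FF := by intro x; simp [hSpl.proj]
      GG := by
        intro x
        simp only [add_mul, mul_add, hSpl.proj]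
        simp
      FG := by
        intro x
        simp only [mul_add, hSpl.proj]
        simp
      GF := by
        intro x
        simp only [add_mul, hSpl.proj]
        simp
      sum := by
        intro x
        rw [← add_assoc]
        exact hSpl.sum x
      AF := fun x => hSpl.inv x 0
      AG := by
        intro x
        simp only [add_mul, mul_add, hSpl.inv] }
  refine ⟨T1 + T2, min 1 (δ / CB), by positivity, lt_min one_pos (by positivity),
    min_le_left _ _, ?_⟩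
  intro x0 hgood ρ hρ hρ1 x y hx hy hxy
  have hCBρ : CB * ρ ≤ δ := by
    have h1 : ρ ≤ δ / CB := hρ1.trans (min_le_right _ _)
    rw [le_div_iff₀ hCB0] at h1
    linarith
  obtain ⟨N, hN1, hN2, hN3⟩ := hod x0 CB ρ hCB hρ hCBρ
  obtain ⟨horb, hlastd⟩ := hN3 x y hx hy hxy
  have hC'0 : 0 ≤ C' := by
    have h := (hgood 0).2
    simpa using h
  have hfin : ∀ t1 t2 : ℝ, 0 ≤ t1 → 0 ≤ t2 → T1 * t1 + T2 * t2 ≤ (T1 + T2) * (t2 + t1) := by
    intro t1 t2 h1 h2
    nlinarith [mul_nonneg hT10 h2, mul_nonneg hT20 h1]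
  have ht1 : 0 ≤ ρ ^ (1 - 4 * ε) * (‖(x : E K) - y‖ / ρ) ^ α := by positivity
  have ht2 : 0 ≤ ρ ^ (-(4 * ε)) * ‖(x : E K) - y‖ := by positivity
  have hθj : ∀ (g : M → ℝ) (θg : ℝ), θ ≤ θg → (∀ p q : M, ‖(p : E K) - q‖ ≤ θg →
      |g p - g q| ≤ 1) → ∀ j ≤ N, |g (D.f^[j] x) - g (D.f^[j] x0)| ≤ 1 ∧
      |g (D.f^[j] y) - g (D.f^[j] x0)| ≤ 1 := by
    intro g θg hg h j hj
    obtain ⟨h1, h2, -, -⟩ := horb j hj
    exact ⟨h _ _ (by linarith), h _ _ (by linarith)⟩
  have hja := hθj a θa (min_le_left _ _) hua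
  have hjb := hθj b θb ((min_le_right _ _).trans (min_le_left _ _)) hub
  have hjc := hθj c θc ((min_le_right _ _).trans (min_le_right _ _)) huc'
  have hdist : ∀ j ≤ N, ‖(D.f^[j] x : E K) - D.f^[j] y‖ ≤ ‖(x : E K) - y‖ *
      Real.exp (∑ i ∈ Finset.range j, a (D.f^[i] x0) + j * (C0 + 2)) := fun j hj => (horb j hj).2.2.2
  have hεn : ∀ n : ℕ, (0 : ℝ) ≤ ε * (n * Λ) := fun n => by positivity
  constructor
  · have h := gen hRC D (fun x => P 0 x + P 1 x) (P 2) hp1 (fun x => - a x) c a C0 Λ ε C' α H L R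
      A1 CB δ ρ N x y x0 hRat.B2 hRat.A1 (fun x y => (hL x y).1) hL0 hRP01 hRnn
      (fun x y => (hHi 2 x y).trans (by
        have h1 : 0 ≤ |Cα| * ‖(x : E K) - y‖ ^ α := by positivity
        rw [hHdef]
        linarith)) hH0 hA1
      (fun j hj => ⟨by
        have h1 := (hja j hj).2
        rw [abs_le] at h1 ⊢
        constructor <;> linarith, (hjc j hj).1⟩)
      hdist hlastd hN2 hδ0 hρ hCB hN1
      (fun n => by
        have h1 := (hgood n).1
        have h2 : ∑ j ∈ Finset.range n, (- a (D.f^[j] x0) + c (D.f^[j] x0) + a (D.f^[j] x0)) =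
            ∑ j ∈ Finset.range n, c (D.f^[j] x0) :=
          Finset.sum_congr rfl fun j _ => by ring
        rw [h2]
        have h3 := hεn n
        linarith)
      (fun k => by
        have h1 := (hgood k).1
        have h2 : ∑ j ∈ Finset.range k, (- a (D.f^[j] x0) + c (D.f^[j] x0) + a (D.f^[j] x0)) =
            ∑ j ∈ Finset.range k, c (D.f^[j] x0) :=
          Finset.sum_congr rfl fun j _ => by ring
        rw [h2]
        have h3 := hεn k
        have h4 := ha (D.f^[k] x0)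
        have h5 : 0 < ε * Λ := mul_pos hε hΛ
        have h6 : 2 * ε * (((k : ℝ) + 1) * Λ) = 2 * (ε * (k * Λ)) + 2 * (ε * Λ) := by ring
        rw [h6]
        linarith)
      hεΛ hC0 hε hΛ hα
    exact h.trans (hfin _ _ ht1 ht2)
  · have h := gen hRC D (P 0) (fun x => P 1 x + P 2 x) hp2 c (fun x => - b x) a C0 Λ ε C' α H L R
      A1 CB δ ρ N x y x0 hRat.B1 hRat.A0 (fun x y => (hL x y).1) hL0 hRP0 hRnn
      (fun x y => by
        have h1 := hHi 1 x y
        have h2 := hHi 2 x y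
        have h3 : (P 1 x + P 2 x) - (P 1 y + P 2 y) = (P 1 x - P 1 y) + (P 2 x - P 2 y) := by
          abel
        rw [h3]
        refine (norm_add_le _ _).trans ?_
        rw [hHdef]
        linarith) hH0 hA1
      (fun j hj => ⟨(hjc j hj).2, by
        have h1 := (hjb j hj).1
        rw [abs_le] at h1 ⊢
        constructor <;> linarith⟩)
      hdist hlastd hN2 hδ0 hρ hCB hN1
      (fun n => by
        have h1 := (hgood n).1
        have h1' := (abs_le.1 (hgood n).2).2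
        have h2 : ∑ j ∈ Finset.range n, (c (D.f^[j] x0) + - b (D.f^[j] x0) + a (D.f^[j] x0)) =
            ∑ j ∈ Finset.range n, c (D.f^[j] x0) +
            ∑ j ∈ Finset.range n, (a (D.f^[j] x0) - b (D.f^[j] x0)) := by
          rw [← Finset.sum_add_distrib]
          exact Finset.sum_congr rfl fun j _ => by ring
        rw [h2]
        linarith)
      (fun k => by
        have h1 := (hgood (k + 1)).1
        have h1' := (abs_le.1 (hgood k).2).2
        have h2 : ∑ j ∈ Finset.range k, (c (D.f^[j] x0) + - b (D.f^[j] x0) + a (D.f^[j] x0)) =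
            ∑ j ∈ Finset.range k, c (D.f^[j] x0) +
            ∑ j ∈ Finset.range k, (a (D.f^[j] x0) - b (D.f^[j] x0)) := by
          rw [← Finset.sum_add_distrib]
          exact Finset.sum_congr rfl fun j _ => by ring
        rw [h2]
        rw [Finset.sum_range_succ] at h1
        push_cast at h1
        have h5 : 0 < ε * Λ := mul_pos hε hΛ
        have h6 : 2 * ε * (((k : ℝ) + 1) * Λ) = ε * (((k : ℝ) + 1) * Λ) + ε * (k * Λ) + ε * Λ := by
          ring
        rw [h6]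
        linarith)
      hεΛ hC0 hε hΛ hα
    exact h.trans (hfin _ _ ht1 ht2)

end Pool.Agent.Helper54.RZ
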